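import Pool.Agent.Lib.MP_33b3f9_ag.M8.SH.Mono
import Pool.Agent.Lib.MP_33b3f9_ag.M8.FP.End
import Pool.Agent.Lib.MP_33b3f9_ag.M8.Cent
import Pool.Agent.Lib.MP_33b3f9_ag.M8.TrE
import Pool.Agent.Lib.MP_33b3f9_ag.M4.SH.Out
import Pool.Agent.Lib.MP_33b3f9_ag.M4.Red

/-!
The monodromy statement in the form used by the counting lemma.
-/

set_option autoImplicit false

namespace M8.SH

open Filter Topology Matrix M4 M4.FP M4.SH M8.FP

theorem has_red (ι : Type) [Fintype ι] [DecidableEq ι] : HasRed ι := by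
  obtain ⟨c, hc, h⟩ := siegel_red ι
  refine ⟨c, hc, fun τ hτ => ?_⟩
  obtain ⟨γ, hγ, h1⟩ := h τ hτ
  exact ⟨⟨γ, hγ⟩, h1⟩

theorem holF_fix {ι W : Type} [Fintype ι] [DecidableEq ι] [NormedAddCommGroup W] [NormedSpace ℂ W]
    {g : Matrix (ι ⊕ ι) (ι ⊕ ι) ℝ} {μ : ℝ} (hg : Sim g μ) (hμ : 0 < μ) (i j : ι) :
    HolF W fun τ : Matrix ι ι ℂ => act g τ i j - τ i j := fun σ s _ hσ hH => by
  have h1 : DifferentiableOn ℂ (fun w i j => σ w i j) s :=
    differentiableOn_pi.2 fun i => differentiableOn_pi.2 fun j => hσ i j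
  have h2 := (differentiableOn_act g).comp h1 fun w hw => den_det_ne_zero hg hμ (hH w hw)
  exact (differentiableOn_pi.1 (differentiableOn_pi.1 h2 i) j).sub (hσ i j)

variable {a b : MZ} {m n : ℕ}

theorem mono (hP : PEL a b m n) (c : Ch a b) (y : Matrix (Fin 11) Bits ℂ) (z : Sy)
    (hz : InH (mat z)) (hE : EndX a b (c.f (mat z))) (hg : GEN a b (cst (c.f (mat z))))
    (hf : FinProj a b y) (he : EtProj c y z) : MONOst c y z := by
  rintro g M ⟨hM, -, hs, hC⟩ d v P hd hv rfl hi hp hh hdm hc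
  have hm : 0 < M := hM.pos
  have hm' : (0 : ℝ) < M := Nat.cast_pos.2 hm
  have hH : ∀ᶠ s in 𝓝 (0 : Fin d → ℂ), InH (mat (v s)) :=
    hv.continuousAt.eventually (Mo.isOpen_inH.mem_nhds hz)
  have hX : ∀ᶠ s in 𝓝 (0 : Fin d → ℂ), act (zr g) (c.f (mat (v s))) ∈ FX a b :=
    hH.mono fun s h => hP.fx_act hm hs hC.1 hC.2 (c.mem _ h)
  have h0 := c.mem _ hz
  have hdet : IsOpen {σ : Fin 8 → Fin 8 → ℂ | (den (zr g) (Matrix.of σ)).det ≠ 0} := by
    refine isOpen_ne_fun (Continuous.matrix_det ?_) continuous_const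
    exact continuous_const.sub (continuous_const.matrix_mul continuous_id)
  have hA : AnalyticAt ℂ (fun (σ : Fin 8 → Fin 8 → ℂ) i j => act (zr g) (Matrix.of σ) i j)
      (c.f (mat (v 0))) :=
    Pool.Agent.Lib.MP_940f24_an.analyticOnNhd_of_differentiableOn hdet
      (differentiableOn_act (zr g)) _ (den_det_ne_zero hs hm' h0.1)
  have hB : AnalyticAt ℂ (fun s (i j : Fin 8) => c.f (mat (v s)) i j) 0 :=
    AnalyticAt.comp (g := fun (t : Sy) (i j : Fin 8) => c.f (mat t) i j)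
      (Pool.Agent.Lib.MP_940f24_an.analyticOnNhd_of_differentiableOn Mo.isOpen_inH c.hol _ hz) hv
  have hV : AnalyticAt ℂ
      (fun (s : Fin d → ℂ) (i j : Fin 8) => act (zr g) (c.f (mat (v s))) i j) 0 :=
    AnalyticAt.comp (f := fun s (i j : Fin 8) => c.f (mat (v s)) i j) hA hB
  obtain ⟨hT, hE'⟩ := he g M hm hs
  obtain ⟨G, hG, hF, hv'⟩ := monoU (has_red _) (Mo.hasLow _) y hf.1 hd hV
    (hX.mono fun s h => h.1) hX (fun e w h => by
      have hD : fderiv ℂ (fun s => Thy c y g (v s)) 0 =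
          (fderiv ℂ (Thy c y g) (v 0)).comp (fderiv ℂ v 0) :=
        fderiv_comp (0 : Fin d → ℂ) hT.differentiableAt hv.differentiableAt
      have h1 : e • Thy c y g (v 0) + fderiv ℂ (fun s => Thy c y g (v s)) 0 w = 0 := h
      rw [hD] at h1
      have h2 : ((e, fderiv ℂ v 0 w) : ℂ × Sy) = (0, 0) := hE' (by simpa using h1)
      exact ⟨congrArg Prod.fst h2, hi (by simpa using congrArg Prod.snd h2)⟩)
    hp hh hdm (fun μ φ hφ => hc.1 μ φ hφ)
  have h8 : ∀ γ ∈ G, Lv 8 γ.1 := fun γ hγ i j => by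
    obtain ⟨β, hβ, -⟩ := hG hγ
    rw [hβ, add_sub_cancel_left]
    exact ⟨β i j, rfl⟩
  have hfix : ∀ γ ∈ G, ∀ (x : MZ) (k : ℕ), 0 < k → Sim (zr x) k →
      (∀ τ ∈ FX a b, act (zr x) τ = τ) →
      act (zr x) (az γ (act (zr g) (c.f (mat (v 0))))) = az γ (act (zr g) (c.f (mat (v 0)))) :=
    fun γ hγ x k hk hx h => Matrix.ext fun i j => sub_eq_zero.1
      (hv' γ hγ _ (holF_fix hx (Nat.cast_pos.2 hk) i j)
        (hX.mono fun s hs => sub_eq_zero.2 (congrFun (congrFun (h _ hs) i) j))).self_of_nhds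
  refine ⟨G, irr_of_fix (c.s.map Complex.ofRealHom) (hg.act h0.1 hm hs hC.1 hC.2) hF fun γ hγ =>
    cent hP hX.self_of_nhds (hE.act h0.1 hm hs hC.1 hC.2) (sim_of_mem (cm_mem ℝ γ)) (h8 γ hγ)
      ⟨inH_az γ hX.self_of_nhds.1, hfix γ hγ a m hP.m0 hP.sim_a fun τ h => h.2.1,
        hfix γ hγ b n hP.n0 hP.sim_b fun τ h => h.2.2⟩,
    h8, fun γ hγ F hF => hv' γ hγ F (holF_of hF)⟩

end M8.SH
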