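import Pool.Agent.Lib.MP_33b3f9_ag.M8.SH.MonoA
import Pool.Agent.Lib.MP_33b3f9_ag.M4.SH.Mono

/-!
The monodromy group of an algebraic germ.
-/

set_option autoImplicit false

namespace M8.SH

open MvPolynomial Filter Topology Metric M4 M4.SH M4.FP M4.Z M8.FP

variable {ι : Type} [Fintype ι] [DecidableEq ι] {d : ℕ}

/-- `cone_prime`, `cone_iff`, `nn_et` for `P`, `nnd_up` with `l = lf y dbl`, `monoU_of_nn`. -/
theorem monoU (hred : HasRed ι) (hlow : HasLow ι) {α : Type} [Fintype α]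
    (y : Matrix α (ι ⊕ ι → Fin 2) ℂ) {S : Set (Matrix ι ι ℂ)}
    (hy : ∀ ε, ∃ (k : ℕ) (c : ℕ → MvPolynomial α ℂ), (∀ e < k, (c e).IsHomogeneous (k - e)) ∧
      ∀ τ ∈ S,
        t2v τ ε ^ k + ∑ e ∈ Finset.range k, eval (y.mulVec (t2v τ)) (c e) * t2v τ ε ^ e = 0)
    (hd : 1 ≤ d) {v : (Fin d → ℂ) → ι → ι → ℂ} (hv : AnalyticAt ℂ v 0)
    (hH : ∀ᶠ s in 𝓝 0, InH (v s)) (hS : ∀ᶠ s in 𝓝 0, v s ∈ S)
    (he : ∀ (c : ℂ) (w : Fin d → ℂ), c • y.mulVec (t2v (v 0)) +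
      fderiv ℂ (fun s => y.mulVec (t2v (v s))) 0 w = 0 → c = 0 ∧ w = 0)
    {P : Ideal (MvPolynomial α ℂ)} (hP : P.IsPrime) (hh : Hom P) (hdm : dm ℂ P = d + 1)
    (hc : ∀ (μ : ℕ) (g : MvPolynomial α ℂ), g.IsHomogeneous μ →
      (g ∈ P ↔ ∀ᶠ s in 𝓝 0, eval (y.mulVec (t2v (v s))) g = 0)) :
    MonoU (GamN ι 4) v := by
  have hΘ := analyticAt_thN_comp 4 hv hH
  obtain ⟨Q, hQ, hQi, hV⟩ := cone_prime (fun s => thN 4 (v s)) hΘ
  have hH' : ∀ᶠ q : ℂ × (Fin d → ℂ) in 𝓝 (1, 0), InH (v q.2) :=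
    (continuous_snd.tendsto' ((1 : ℂ), (0 : Fin d → ℂ)) 0 rfl).eventually hH
  have hS' : ∀ᶠ q : ℂ × (Fin d → ℂ) in 𝓝 (1, 0), v q.2 ∈ S :=
    (continuous_snd.tendsto' ((1 : ℂ), (0 : Fin d → ℂ)) 0 rfl).eventually hS
  have hc' : ∀ g, g ∈ P ↔ aeval (lf y dbl) g ∈ Q := fun g => by
    rw [hQi]
    simp only [eval_aeval, mono_Zm]
    rw [cone_iff (fun s => y.mulVec (t2v (v s))) g]
    constructor
    · exact fun h μ => (hc μ _ (homogeneousComponent_isHomogeneous μ g)).1 (hh g h μ)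
    · intro h
      rw [← sum_homogeneousComponent g]
      exact P.sum_mem fun μ _ => (hc μ _ (homogeneousComponent_isHomogeneous μ g)).2 (h μ)
  have h2 : ∀ ε, ∃ (k : ℕ) (c : ℕ → MvPolynomial α ℂ), X (dbl ε) ^ k +
      ∑ e ∈ Finset.range k, aeval (lf y dbl) (c e) * X (dbl ε) ^ e ∈ Q := fun ε => by
    obtain ⟨k, c, hk, h⟩ := hy ε
    refine ⟨k, c, (hQi _).2 ?_⟩
    filter_upwards [hS'] with q hq
    have e1 : ∑ e ∈ Finset.range k, eval (q.1 • y.mulVec (t2v (v q.2))) (c e) *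
        (q.1 * t2v (v q.2) ε) ^ e = q.1 ^ k * ∑ e ∈ Finset.range k,
          eval (y.mulVec (t2v (v q.2))) (c e) * t2v (v q.2) ε ^ e := by
      rw [Finset.mul_sum]
      refine Finset.sum_congr rfl fun e he => ?_
      have he' := Finset.mem_range.1 he
      rw [mono_smul (hk e he'), mul_pow, ← pow_sub_mul_pow q.1 he'.le]
      ring
    simp only [map_add, map_pow, map_sum, map_mul, eval_X, eval_aeval, mono_Zm, Pi.smul_apply,
      smul_eq_mul, thN_dbl]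
    rw [e1, mul_pow, ← mul_add, h _ hq, mul_zero]
  have h4 : ∀ e, ∃ R : MvPolynomial (ι ⊕ ι → Fin 2) ℂ, X e ^ 4 - rename dbl R ∈ Q := fun e => by
    obtain ⟨R, hR, h⟩ := thN_pow e
    refine ⟨R, (hQi _).2 ?_⟩
    filter_upwards [hH'] with q hq
    have e1 : (q.1 • thN 4 (v q.2)) ∘ dbl = q.1 • t2v (v q.2) := by
      funext ε
      simp only [Function.comp, Pi.smul_apply, thN_dbl]
    rw [map_sub, map_pow, eval_X, eval_rename, e1, mono_smul hR, ← h _ hq, Pi.smul_apply,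
      smul_eq_mul, mul_pow, sub_self]
  let L : (ℂ × (Fin d → ℂ)) →ₗ[ℂ] (α → ℂ) :=
    (LinearMap.toSpanSingleton ℂ _ (y.mulVec (t2v (v 0)))).coprod
      (fderiv ℂ (fun s => y.mulVec (t2v (v s))) 0 : (Fin d → ℂ) →ₗ[ℂ] (α → ℂ))
  have hL : Function.Injective L := (injective_iff_map_eq_zero L).2 fun e h =>
    Prod.ext (he e.1 e.2 h).1 (he e.1 e.2 h).2
  obtain ⟨z, hz, hn, hz'⟩ := nn_et hP hh hdm (E := ℂ × (Fin d → ℂ)) (by simp [add_comm]) L hL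
  obtain ⟨M, hM⟩ := exists_clm (lf y (dbl (κ := ι ⊕ ι))) fun i => by
    simpa using lf_hom y (dbl (κ := ι ⊕ ι)) X (isHomogeneous_X ℂ) i
  refine monoU_of_nn dvd_rfl hred hlow hd hv hH hΘ hQ hV (lf_hom y dbl z hz)
    (nnd_up (lf y dbl) dbl hc' h2 h4 hn) fun c w h => ?_
  have e1 : (fun s => y.mulVec (t2v (v s))) = fun s => M (thN 4 (v s)) := by
    funext s
    rw [hM]
    simpa using (mono_Zm y 1 (v s)).symm
  have e2 : fderiv ℂ (fun s => y.mulVec (t2v (v s))) 0 w =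
      M (fderiv ℂ (fun s => thN 4 (v s)) 0 w) := by
    rw [e1]
    exact DFunLike.congr_fun (M.hasFDerivAt.comp 0 hΘ.differentiableAt.hasFDerivAt).fderiv w
  have e3 : L (c, w) = Zm (lf y dbl) (c • thN 4 (v 0) + fderiv ℂ (fun s => thN 4 (v s)) 0 w) := by
    rw [← hM, map_add, ← e2, hM, mono_Zm]
    rfl
  have h1 := hz' (c, w) (by
    rw [e3, ← h]
    funext i
    exact (eval_aeval _ _ _).symm)
  exact ⟨congrArg Prod.fst h1, congrArg Prod.snd h1⟩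

end M8.SH
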