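import Pool.Agent.Lib.MP_33b3f9_ag.M8.FP.Main
import Pool.Agent.Lib.MP_33b3f9_ag.M4.SH.MonoA

/-!
The monodromy group of a germ, from a good Noether normalisation.
-/

set_option autoImplicit false

namespace M8.SH

open MvPolynomial Filter Topology Metric M4 M4.SH M4.FP M4.Z M8.FP

variable {ι : Type} [Fintype ι] [DecidableEq ι] {N : ℕ} [NeZero N] {d : ℕ}

/-- A subgroup of `Γ` with few invariant tensors preserves the ideal of the germ `v`. -/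
def MonoU (Γ : Subgroup (Matrix.symplecticGroup ι ℤ)) {d : ℕ}
    (v : (Fin d → ℂ) → Matrix ι ι ℂ) : Prop :=
  ∃ G ≤ Γ, FixU G (cst (v 0)) ∧ ∀ g ∈ G, ∀ F : Matrix ι ι ℂ → ℂ, HolF (Fin (d + 1) → ℂ) F →
    (∀ᶠ s in 𝓝 0, F (v s) = 0) → ∀ᶠ s in 𝓝 0, F (az g (v s)) = 0

/-- `Φ q = Z (q.1 • thN N (v q.2))` has an analytic local inverse `Ψ` at `w = Φ (1, 0)`,
`σ u = v (Ψ u).2`. `D` from `exists_form_bd` and `thN_not_mem_bd`; `exists_br`; `Ω` is the set where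
`Δ * X 0` does not vanish; `sheets`, `exists_dir`, `Br.section_iff`, `mainU`. -/
theorem monoU_of_nn (hN : 4 ∣ N) (hred : HasRed ι) (hlow : HasLow ι) (hd : 1 ≤ d)
    {v : (Fin d → ℂ) → ι → ι → ℂ} (hv : AnalyticAt ℂ v 0) (hH : ∀ᶠ s in 𝓝 0, InH (v s))
    (hΘ : AnalyticAt ℂ (fun s => thN N (v s)) 0)
    {P : Ideal (MvPolynomial (ι ⊕ ι → Fin N) ℂ)} (hP : P.IsPrime)
    (hV : ∀ᶠ q : ℂ × (Fin d → ℂ) in 𝓝 (1, 0), q.1 • thN N (v q.2) ∈ Vz P)
    {z : Fin (d + 1) → MvPolynomial (ι ⊕ ι → Fin N) ℂ} (hz : ∀ j, (z j).IsHomogeneous 1)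
    (hn : NNd z P) (he : ∀ (c : ℂ) (w : Fin d → ℂ),
      Zm z (c • thN N (v 0) + fderiv ℂ (fun s => thN N (v s)) 0 w) = 0 → c = 0 ∧ w = 0) :
    MonoU (GamN ι N) v := by
  obtain ⟨Z, hZ⟩ := exists_clm z hz
  have hZ' : Zm z = Z := funext fun ξ => (hZ ξ).symm
  have hH0 : InH (v 0) := hH.self_of_nhds
  have hΘ' : AnalyticAt ℂ (fun q : ℂ × (Fin d → ℂ) => thN N (v q.2)) (1, 0) :=
    AnalyticAt.comp (g := fun s => thN N (v s)) (f := Prod.snd) hΘ analyticAt_snd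
  have hζ : AnalyticAt ℂ (fun q : ℂ × (Fin d → ℂ) => q.1 • thN N (v q.2)) (1, 0) :=
    analyticAt_fst.smul hΘ'
  have hΦ : AnalyticAt ℂ (fun q : ℂ × (Fin d → ℂ) => Z (q.1 • thN N (v q.2))) (1, 0) :=
    (Z.analyticAt _).comp hζ
  have hder : HasFDerivAt (fun q : ℂ × (Fin d → ℂ) => Z (q.1 • thN N (v q.2))) _ (1, 0) :=
    Z.hasFDerivAt.comp _ (hasFDerivAt_fst.smul
      (HasFDerivAt.comp (g := fun s => thN N (v s)) (f := Prod.snd) ((1 : ℂ), (0 : Fin d → ℂ))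
        hΘ.differentiableAt.hasFDerivAt hasFDerivAt_snd))
  obtain ⟨Ψ, hΨ, hr, hl⟩ := monoa_inv (by simp [add_comm]) hΦ fun e h0 => by
    rw [hder.fderiv] at h0
    obtain ⟨h1, h2⟩ := he e.1 e.2 (by
      rw [hZ', add_comm (e.1 • _)]
      simpa using h0)
    exact Prod.ext h1 h2
  simp only [one_smul] at hΨ hr
  have hΨ0 : Ψ (Z (thN N (v 0))) = (1, 0) := by simpa using hl.self_of_nhds
  have hT : Tendsto Ψ (𝓝 (Z (thN N (v 0)))) (𝓝 (1, 0)) := hΨ0 ▸ hΨ.continuousAt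
  have hT2 : Tendsto (fun u => (Ψ u).2) (𝓝 (Z (thN N (v 0)))) (𝓝 0) :=
    (continuous_snd.tendsto _).comp hT
  have hσ : AnalyticAt ℂ (fun u => v (Ψ u).2) (Z (thN N (v 0))) :=
    AnalyticAt.comp (g := v) (f := fun u => (Ψ u).2) (by rw [hΨ0]; exact hv)
      (analyticAt_snd.comp hΨ)
  have hζ' : AnalyticAt ℂ (fun u => (Ψ u).1 • thN N (v (Ψ u).2)) (Z (thN N (v 0))) :=
    AnalyticAt.comp (g := fun q : ℂ × (Fin d → ℂ) => q.1 • thN N (v q.2)) (f := Ψ)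
      (by rw [hΨ0]; exact hζ) hΨ
  have h1 : ∀ᶠ u in 𝓝 (Z (thN N (v 0))), (Ψ u).1 ≠ 0 :=
    ((continuous_fst.tendsto _).comp hT).eventually_ne one_ne_zero
  obtain ⟨r, hr0, hb⟩ := Metric.eventually_nhds_iff_ball.1 (hσ.eventually_analyticAt.and
    (hζ'.eventually_analyticAt.and ((hT2.eventually hH).and (h1.and ((hT.eventually hV).and hr)))))
  have hV0 : thN N (v 0) ∈ Vz P := by simpa using hV.self_of_nhds
  obtain ⟨_, D, -, hD, hD'⟩ := Mo.exists_form_bd (Dvd.dvd.trans (by norm_num) hN)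
    (Mo.thN_not_mem_bd hN hH0)
  obtain ⟨Δ, n, hΔ, hB, hΔD⟩ := exists_br hP hn (D := D) fun h => hD (hV0 D h)
  rw [hZ'] at hB hΔD he
  have hsub : {u | eval u (Δ * X 0) ≠ 0} ⊆ {u | eval u Δ ≠ 0} := fun u hu h =>
    hu (by rw [map_mul, h, zero_mul])
  have hB' := hB.mono hsub (isOpen_ne_fun (continuous_eval _) continuous_const)
  have hS := sheets hN hred hlow Z.continuous (fun c ξ => Z.map_smul c ξ) hB' (by simp)
    fun ξ hξ hΩ h => hΔD ξ hξ (hsub hΩ) (hD' ξ h)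
  have hw : Z (thN N (v 0)) ≠ 0 := fun h => one_ne_zero (he 1 0 (by simpa using h)).1
  obtain ⟨h, hf, hh⟩ := exists_dir hd (mul_ne_zero hΔ (X_ne_zero 0)) hw
  obtain ⟨G, hG, hsp, hmain⟩ := mainU hS (σ := fun u => v (Ψ u).2) hr0
    (fun i j u hu => (differentiableAt_pi.1 (differentiableAt_pi.1
      (hb u hu).1.differentiableAt i) j).differentiableWithinAt)
    (fun u hu => (hb u hu).2.2.1)
    (fun u hu hΩ => ⟨(hb u hu).2.2.1, (Ψ u).1, (hb u hu).2.2.2.1, (hb u hu).2.2.2.2.1,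
      (hb u hu).2.2.2.2.2,
      (hB'.section_iff Z.continuous hΩ (ζ := fun u => (Ψ u).1 • thN N (v (Ψ u).2))
        (hb u hu).2.1.continuousAt
        (Filter.mem_of_superset (isOpen_ball.mem_nhds hu) fun u' hu' => (hb u' hu').2.2.2.2) _).2
        (Filter.mem_of_superset (isOpen_ball.mem_nhds hu) fun u' hu' =>
          ⟨_, _, (hb u' hu').2.2.2.1, (hb u' hu').2.2.1, rfl⟩)⟩)
    (h := h) (hf.subset fun s hs => not_not.1 hs)
    (fun hc => by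
      have h2 : Tendsto (fun s : ℂ => Z (thN N (v 0)) + s • h) (𝓝 0) (𝓝 (Z (thN N (v 0)))) :=
        (by fun_prop : Continuous fun s : ℂ => Z (thN N (v 0)) + s • h).tendsto' 0 _ (by simp)
      obtain ⟨s, ⟨h3, h4⟩, h5⟩ := (((hc.and (h2.eventually hr)).filter_mono
        (nhdsWithin_le_nhds (s := {0}ᶜ))).and self_mem_nhdsWithin).exists
      rw [h3, hΨ0, Z.map_smul] at h4
      exact hh s _ h5 h4.symm)
  rw [hΨ0] at hsp
  refine ⟨G, hG, hsp, fun g hgG F hF h0 => ?_⟩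
  have h2 : Tendsto (fun s : Fin d → ℂ => ((1 : ℂ), s)) (𝓝 0) (𝓝 (1, 0)) :=
    (Continuous.prodMk_right 1).tendsto 0
  have h3 : Tendsto (fun s : Fin d → ℂ => Z ((1 : ℂ) • thN N (v s))) (𝓝 0)
      (𝓝 (Z (thN N (v 0)))) := by
    have h4 := hΦ.continuousAt.tendsto.comp h2
    rw [one_smul] at h4
    exact h4
  filter_upwards [h3.eventually (hmain g hgG F hF (hT2.eventually h0)), h2.eventually hl] with s
    h4 h5
  rwa [h5] at h4

end M8.SH
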